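import Pool.Agent.Helper17_EU.StmtsT

/-! # FG1, FG2: finite graphs made of edge-disjoint arcs -/

open Set Metric Topology unitInterval

noncomputable section

namespace Pool.Agent.EU.H42

universe u v

variable {X : Type u} [MetricSpace X] {ι : Type v} {𝓔 : EdgeSys X ι}

/-! ## small sets -/

theorem small_mono {r : ℝ} {A B : Set X} (h : A ⊆ B) (hB : Small r B) : Small r A :=
  fun y hy z hz => hB y (h hy) z (h hz)

theorem small_le {r r' : ℝ} (h : r ≤ r') {A : Set X} (hA : Small r A) : Small r' A :=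
  fun y hy z hz => (hA y hy z hz).trans h

/-! ## undirected chains -/

theorem uchain_append {l : List 𝓔.Arc} {x y z : X} {w w' : List (𝓔.Arc × Bool)}
    (h : 𝓔.UChain l x w y) (h' : 𝓔.UChain l y w' z) : 𝓔.UChain l x (w ++ w') z := by
  induction h with
  | nil x => simpa using h'
  | fwd a w y ha _ ih => exact .fwd a _ _ ha (ih h')
  | bwd a w y ha _ ih => exact .bwd a _ _ ha (ih h')

theorem chainSet_append (w w' : List (𝓔.Arc × Bool)) :
    𝓔.chainSet (w ++ w') = 𝓔.chainSet w ∪ 𝓔.chainSet w' := by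
  ext x
  simp only [EdgeSys.chainSet, List.mem_append, mem_setOf_eq, mem_union]
  constructor
  · rintro ⟨p, hp | hp, hx⟩
    · exact Or.inl ⟨p, hp, hx⟩
    · exact Or.inr ⟨p, hp, hx⟩
  · rintro (⟨p, hp, hx⟩ | ⟨p, hp, hx⟩)
    · exact ⟨p, Or.inl hp, hx⟩
    · exact ⟨p, Or.inr hp, hx⟩

theorem chainSet_nil : 𝓔.chainSet ([] : List (𝓔.Arc × Bool)) = ∅ := by
  ext x; simp [EdgeSys.chainSet]

theorem chainSet_cons (p : 𝓔.Arc × Bool) (w : List (𝓔.Arc × Bool)) :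
    𝓔.chainSet (p :: w) = range p.1.f ∪ 𝓔.chainSet w := by
  ext x
  simp only [EdgeSys.chainSet, List.mem_cons, mem_setOf_eq, mem_union]
  constructor
  · rintro ⟨q, rfl | hq, hx⟩
    · exact Or.inl hx
    · exact Or.inr ⟨q, hq, hx⟩
  · rintro (hx | ⟨q, hq, hx⟩)
    · exact ⟨p, Or.inl rfl, hx⟩
    · exact ⟨q, Or.inr hq, hx⟩

theorem uchain_reverse {l : List 𝓔.Arc} {x y : X} {w : List (𝓔.Arc × Bool)}
    (h : 𝓔.UChain l x w y) : ∃ w', 𝓔.UChain l y w' x ∧ 𝓔.chainSet w' = 𝓔.chainSet w := by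
  induction h with
  | nil x => exact ⟨[], .nil x, rfl⟩
  | fwd a w y ha _ ih =>
    obtain ⟨w', h1, h2⟩ := ih
    refine ⟨w' ++ [(a, false)], uchain_append h1 (.bwd a [] _ ha (.nil _)), ?_⟩
    rw [chainSet_append, chainSet_cons, chainSet_cons, h2, chainSet_nil, union_empty, union_comm]
  | bwd a w y ha _ ih =>
    obtain ⟨w', h1, h2⟩ := ih
    refine ⟨w' ++ [(a, true)], uchain_append h1 (.fwd a [] _ ha (.nil _)), ?_⟩
    rw [chainSet_append, chainSet_cons, chainSet_cons, h2, chainSet_nil, union_empty, union_comm]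

theorem uchain_mono {l l' : List 𝓔.Arc} (hl : ∀ a ∈ l, a ∈ l') {x y : X}
    {w : List (𝓔.Arc × Bool)} (h : 𝓔.UChain l x w y) : 𝓔.UChain l' x w y := by
  induction h with
  | nil x => exact .nil x
  | fwd a w y ha _ ih => exact .fwd a _ _ (hl a ha) ih
  | bwd a w y ha _ ih => exact .bwd a _ _ (hl a ha) ih

theorem uchain_arcs {l : List 𝓔.Arc} {x y : X} {w : List (𝓔.Arc × Bool)}
    (h : 𝓔.UChain l x w y) : ∀ p ∈ w, p.1 ∈ l := by
  induction h with
  | nil x => simp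
  | fwd a w y ha _ ih =>
    intro p hp
    rcases List.mem_cons.1 hp with rfl | hp
    · exact ha
    · exact ih p hp
  | bwd a w y ha _ ih =>
    intro p hp
    rcases List.mem_cons.1 hp with rfl | hp
    · exact ha
    · exact ih p hp

/-! ## points of edges -/

theorem exists_other (i : ι) (x y : X) : ∃ z ∈ 𝓔.o i, z ≠ x ∧ z ≠ y := by
  have h1 : (1 / 4 : ℝ) ∈ I := ⟨by norm_num, by norm_num⟩
  have h2 : (1 / 2 : ℝ) ∈ I := ⟨by norm_num, by norm_num⟩
  have h3 : (3 / 4 : ℝ) ∈ I := ⟨by norm_num, by norm_num⟩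
  have hm : ∀ t : I, 0 < (t : ℝ) → (t : ℝ) < 1 → 𝓔.φ i t ∈ 𝓔.o i := by
    intro t h0 h1
    exact ⟨t, ⟨h0, h1⟩, rfl⟩
  have m1 := hm ⟨1 / 4, h1⟩ (by norm_num) (by norm_num)
  have m2 := hm ⟨1 / 2, h2⟩ (by norm_num) (by norm_num)
  have m3 := hm ⟨3 / 4, h3⟩ (by norm_num) (by norm_num)
  have n12 : 𝓔.φ i ⟨1 / 4, h1⟩ ≠ 𝓔.φ i ⟨1 / 2, h2⟩ := by
    intro h
    have := congrArg Subtype.val (𝓔.inj i h)
    norm_num at this
  have n13 : 𝓔.φ i ⟨1 / 4, h1⟩ ≠ 𝓔.φ i ⟨3 / 4, h3⟩ := by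
    intro h
    have := congrArg Subtype.val (𝓔.inj i h)
    norm_num at this
  have n23 : 𝓔.φ i ⟨1 / 2, h2⟩ ≠ 𝓔.φ i ⟨3 / 4, h3⟩ := by
    intro h
    have := congrArg Subtype.val (𝓔.inj i h)
    norm_num at this
  by_contra hcon
  push Not at hcon
  have c1 := hcon _ m1
  have c2 := hcon _ m2
  have c3 := hcon _ m3
  by_cases e1 : 𝓔.φ i ⟨1 / 4, h1⟩ = x
  · by_cases e2 : 𝓔.φ i ⟨1 / 2, h2⟩ = x
    · exact n12 (e1.trans e2.symm)
    · by_cases e3 : 𝓔.φ i ⟨3 / 4, h3⟩ = x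
      · exact n13 (e1.trans e3.symm)
      · exact n23 ((c2 e2).trans (c3 e3).symm)
  · by_cases e2 : 𝓔.φ i ⟨1 / 2, h2⟩ = x
    · by_cases e3 : 𝓔.φ i ⟨3 / 4, h3⟩ = x
      · exact n23 (e2.trans e3.symm)
      · exact n13 ((c1 e1).trans (c3 e3).symm)
    · exact n12 ((c1 e1).trans (c2 e2).symm)

theorem disj_E_of {a b : 𝓔.Arc} {x y : X} (h : range a.f ∩ range b.f ⊆ {x, y}) :
    Disjoint a.E b.E := by
  rw [Set.disjoint_left]
  intro i hi hj
  obtain ⟨z, hz, h1, h2⟩ := exists_other (𝓔 := 𝓔) i x y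
  have := h ⟨hi hz, hj hz⟩
  rcases this with h3 | h3
  · exact h1 h3
  · exact h2 h3

theorem E_mono {a b : 𝓔.Arc} (h : range a.f ⊆ range b.f) : a.E ⊆ b.E :=
  fun _ hi => Subset.trans hi h

theorem img_inter (A : 𝓔.Arc) {s t : I} (c : I) (h1 : s ≤ c) (h2 : c ≤ t) :
    A.f '' Icc s c ∩ A.f '' Icc c t ⊆ {A.f c} := by
  rintro x ⟨⟨p, hp, rfl⟩, ⟨q, hq, hpq⟩⟩
  have := A.inj hpq
  subst this
  have : q = c := le_antisymm hp.2 hq.1
  rw [this]
  rfl

/-! ## refinements -/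

/-- `l` is obtained from `l'` by subdivision at (at least) the points of `B` -/
structure Ref (l' l : List 𝓔.Arc) (B : Set X) : Prop where
  edisj : 𝓔.EDisj l' → 𝓔.EDisj l
  el : 𝓔.EL l = 𝓔.EL l'
  sub : ∀ b ∈ l, ∃ a ∈ l', range b.f ⊆ range a.f ∧
    ((b.f 0 = a.f 0 ∧ b.f 1 = a.f 1) ∨ b.f 0 ∈ B ∨ b.f 1 ∈ B) ∧
    (b.f 0 = a.f 0 ∨ b.f 0 ∈ B) ∧ (b.f 1 = a.f 1 ∨ b.f 1 ∈ B) ∧
    (∀ t, b.f t = a.f 0 → t = 0) ∧ (∀ t, b.f t = a.f 1 → t = 1)
  cov : ∀ a ∈ l', ∀ x ∈ range a.f, ∃ b ∈ l, x ∈ range b.f ∧ range b.f ⊆ range a.f ∧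
    (b.f 0 = a.f 0 ∨ b.f 0 ∈ B)
  chain : ∀ a ∈ l', ∀ x ∈ range a.f, ∀ y ∈ range a.f, (x = a.f 0 ∨ x = a.f 1 ∨ x ∈ B) →
    (y = a.f 0 ∨ y = a.f 1 ∨ y ∈ B) → ∃ w, 𝓔.UChain l x w y ∧ 𝓔.chainSet w ⊆ range a.f

theorem EL_cons (a : 𝓔.Arc) (l : List 𝓔.Arc) : 𝓔.EL (a :: l) = a.E ∪ 𝓔.EL l := by
  ext i
  simp [EdgeSys.EL]

theorem EL_append (l l' : List 𝓔.Arc) : 𝓔.EL (l ++ l') = 𝓔.EL l ∪ 𝓔.EL l' := by
  ext i
  simp only [EdgeSys.EL, List.mem_append, mem_setOf_eq, mem_union]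
  constructor
  · rintro ⟨a, h | h, hi⟩
    · exact Or.inl ⟨a, h, hi⟩
    · exact Or.inr ⟨a, h, hi⟩
  · rintro (⟨a, h, hi⟩ | ⟨a, h, hi⟩)
    · exact ⟨a, Or.inl h, hi⟩
    · exact ⟨a, Or.inr h, hi⟩

theorem Ref.refine {l' l : List 𝓔.Arc} {B : Set X} (h : Ref l' l B) {x y : X}
    {w : List (𝓔.Arc × Bool)} (hw : 𝓔.UChain l' x w y) :
    ∃ w', 𝓔.UChain l x w' y ∧ 𝓔.chainSet w' ⊆ 𝓔.chainSet w := by
  induction hw with
  | nil x => exact ⟨[], .nil x, le_rfl⟩
  | fwd a w y ha _ ih =>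
    obtain ⟨w1, h1, h2⟩ := ih
    obtain ⟨w2, h3, h4⟩ := h.chain a ha (a.f 0) ⟨0, rfl⟩ (a.f 1) ⟨1, rfl⟩ (Or.inl rfl)
      (Or.inr (Or.inl rfl))
    refine ⟨w2 ++ w1, uchain_append h3 h1, ?_⟩
    rw [chainSet_append, chainSet_cons]
    exact union_subset_union h4 h2
  | bwd a w y ha _ ih =>
    obtain ⟨w1, h1, h2⟩ := ih
    obtain ⟨w2, h3, h4⟩ := h.chain a ha (a.f 1) ⟨1, rfl⟩ (a.f 0) ⟨0, rfl⟩
      (Or.inr (Or.inl rfl)) (Or.inl rfl)
    refine ⟨w2 ++ w1, uchain_append h3 h1, ?_⟩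
    rw [chainSet_append, chainSet_cons]
    exact union_subset_union h4 h2

theorem Ref.trans {l0 l1 l2 : List 𝓔.Arc} {B1 B2 : Set X} (h1 : Ref l0 l1 B1)
    (h2 : Ref l1 l2 B2) : Ref l0 l2 (B1 ∪ B2) := by
  refine ⟨fun h => h2.edisj (h1.edisj h), h2.el.trans h1.el, ?_, ?_, ?_⟩
  · intro b hb
    obtain ⟨c, hc, c1, c2, c3, c4, c5, c6⟩ := h2.sub b hb
    obtain ⟨a, ha, a1, a2, a3, a4, a5, a6⟩ := h1.sub c hc
    refine ⟨a, ha, c1.trans a1, ?_, ?_, ?_, ?_, ?_⟩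
    · rcases c2 with ⟨e0, e1⟩ | c2 | c2
      · rcases a2 with ⟨e2, e3⟩ | a2 | a2
        · exact Or.inl ⟨e0.trans e2, e1.trans e3⟩
        · exact Or.inr (Or.inl (Or.inl (e0 ▸ a2)))
        · exact Or.inr (Or.inr (Or.inl (e1 ▸ a2)))
      · exact Or.inr (Or.inl (Or.inr c2))
      · exact Or.inr (Or.inr (Or.inr c2))
    · rcases c3 with c3 | c3
      · rcases a3 with a3 | a3
        · exact Or.inl (c3.trans a3)
        · exact Or.inr (Or.inl (c3 ▸ a3))
      · exact Or.inr (Or.inr c3)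
    · rcases c4 with c4 | c4
      · rcases a4 with a4 | a4
        · exact Or.inl (c4.trans a4)
        · exact Or.inr (Or.inl (c4 ▸ a4))
      · exact Or.inr (Or.inr c4)
    · intro t ht
      obtain ⟨t', ht'⟩ := c1 ⟨t, rfl⟩
      have : t' = 0 := a5 t' (ht'.trans ht)
      subst this
      exact c5 t ht'.symm
    · intro t ht
      obtain ⟨t', ht'⟩ := c1 ⟨t, rfl⟩
      have : t' = 1 := a6 t' (ht'.trans ht)
      subst this
      exact c6 t ht'.symm
  · intro a ha x hx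
    obtain ⟨b, hb, b1, b2, b3⟩ := h1.cov a ha x hx
    obtain ⟨c, hc, c1, c2, c3⟩ := h2.cov b hb x b1
    refine ⟨c, hc, c1, c2.trans b2, ?_⟩
    rcases c3 with c3 | c3
    · rcases b3 with b3 | b3
      · exact Or.inl (c3.trans b3)
      · exact Or.inr (Or.inl (c3 ▸ b3))
    · exact Or.inr (Or.inr c3)
  · intro a ha x hx y hy hx' hy'
    -- from a node to a node of `l1`
    have key : ∀ x ∈ range a.f, (x = a.f 0 ∨ x = a.f 1 ∨ x ∈ B1 ∪ B2) →
        ∃ z ∈ range a.f, (z = a.f 0 ∨ z = a.f 1 ∨ z ∈ B1) ∧ ∃ w, 𝓔.UChain l2 x w z ∧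
          𝓔.chainSet w ⊆ range a.f := by
      intro x hx hx'
      by_cases hx1 : x = a.f 0 ∨ x = a.f 1 ∨ x ∈ B1
      · exact ⟨x, hx, hx1, [], .nil x, by rw [chainSet_nil]; exact empty_subset _⟩
      · have hx2 : x ∈ B2 := by
          rcases hx' with h | h | h | h
          · exact absurd (Or.inl h) hx1
          · exact absurd (Or.inr (Or.inl h)) hx1
          · exact absurd (Or.inr (Or.inr h)) hx1
          · exact h
        obtain ⟨b, hb, b1, b2, b3⟩ := h1.cov a ha x hx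
        obtain ⟨w, w1, w2⟩ := h2.chain b hb x b1 (b.f 0) ⟨0, rfl⟩ (Or.inr (Or.inr hx2))
          (Or.inl rfl)
        refine ⟨b.f 0, b2 ⟨0, rfl⟩, ?_, w, w1, w2.trans b2⟩
        rcases b3 with b3 | b3
        · exact Or.inl b3
        · exact Or.inr (Or.inr b3)
    obtain ⟨z1, z1a, z1n, w1, hw1, hs1⟩ := key x hx hx'
    obtain ⟨z2, z2a, z2n, w2, hw2, hs2⟩ := key y hy hy'
    obtain ⟨w3, hw3, hs3⟩ := h1.chain a ha z1 z1a z2 z2a z1n z2n
    obtain ⟨w4, hw4, hs4⟩ := h2.refine hw3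
    obtain ⟨w5, hw5, hs5⟩ := uchain_reverse hw2
    refine ⟨w1 ++ (w4 ++ w5), uchain_append hw1 (uchain_append hw4 hw5), ?_⟩
    rw [chainSet_append, chainSet_append, hs5]
    exact union_subset hs1 (union_subset (hs4.trans hs3) hs2)

theorem Ref.append {l0 l1 m0 m1 : List 𝓔.Arc} {B : Set X} (h1 : Ref l0 l1 B)
    (h2 : Ref m0 m1 B) : Ref (l0 ++ m0) (l1 ++ m1) B := by
  refine ⟨?_, ?_, ?_, ?_, ?_⟩
  · intro h
    unfold EdgeSys.EDisj at h ⊢
    rw [List.pairwise_append] at h ⊢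
    refine ⟨h1.edisj h.1, h2.edisj h.2.1, ?_⟩
    intro a ha b hb
    obtain ⟨a', ha', ea, -⟩ := h1.sub a ha
    obtain ⟨b', hb', eb, -⟩ := h2.sub b hb
    exact Disjoint.mono (E_mono ea) (E_mono eb) (h.2.2 a' ha' b' hb')
  · rw [EL_append, EL_append, h1.el, h2.el]
  · intro b hb
    rcases List.mem_append.1 hb with hb | hb
    · obtain ⟨a, ha, h⟩ := h1.sub b hb
      exact ⟨a, List.mem_append.2 (Or.inl ha), h⟩
    · obtain ⟨a, ha, h⟩ := h2.sub b hb
      exact ⟨a, List.mem_append.2 (Or.inr ha), h⟩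
  · intro a ha x hx
    rcases List.mem_append.1 ha with ha | ha
    · obtain ⟨b, hb, h⟩ := h1.cov a ha x hx
      exact ⟨b, List.mem_append.2 (Or.inl hb), h⟩
    · obtain ⟨b, hb, h⟩ := h2.cov a ha x hx
      exact ⟨b, List.mem_append.2 (Or.inr hb), h⟩
  · intro a ha x hx y hy hx' hy'
    rcases List.mem_append.1 ha with ha | ha
    · obtain ⟨w, hw, h⟩ := h1.chain a ha x hx y hy hx' hy'
      exact ⟨w, uchain_mono (fun c hc => List.mem_append.2 (Or.inl hc)) hw, h⟩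
    · obtain ⟨w, hw, h⟩ := h2.chain a ha x hx y hy hx' hy'
      exact ⟨w, uchain_mono (fun c hc => List.mem_append.2 (Or.inr hc)) hw, h⟩

theorem Ref.nil (B : Set X) : Ref (𝓔 := 𝓔) [] [] B := by
  refine ⟨fun h => h, rfl, ?_, ?_, ?_⟩ <;> simp

/-- no subdivision necessary -/
theorem Ref.same (a : 𝓔.Arc) (B : Set X) (h : ∀ x ∈ range a.f, x ∈ B → x = a.f 0 ∨ x = a.f 1) :
    Ref [a] [a] B := by
  refine ⟨fun h => h, rfl, ?_, ?_, ?_⟩
  · intro b hb
    rw [List.mem_singleton] at hb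
    subst hb
    exact ⟨b, List.mem_singleton.2 rfl, le_rfl, Or.inl ⟨rfl, rfl⟩, Or.inl rfl, Or.inl rfl,
      fun t ht => b.inj ht, fun t ht => b.inj ht⟩
  · intro b hb x hx
    rw [List.mem_singleton] at hb
    subst hb
    exact ⟨b, List.mem_singleton.2 rfl, hx, le_rfl, Or.inl rfl⟩
  · intro b hb x hx y hy hx' hy'
    rw [List.mem_singleton] at hb
    subst hb
    have hx2 : x = b.f 0 ∨ x = b.f 1 := by
      rcases hx' with h' | h' | h'
      · exact Or.inl h'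
      · exact Or.inr h'
      · exact h x hx h'
    have hy2 : y = b.f 0 ∨ y = b.f 1 := by
      rcases hy' with h' | h' | h'
      · exact Or.inl h'
      · exact Or.inr h'
      · exact h y hy h'
    have hb : b ∈ [b] := List.mem_singleton.2 rfl
    have c1 : 𝓔.chainSet [(b, true)] ⊆ range b.f := by
      rw [chainSet_cons, chainSet_nil, union_empty]
    have c2 : 𝓔.chainSet [(b, false)] ⊆ range b.f := by
      rw [chainSet_cons, chainSet_nil, union_empty]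
    have c0 : 𝓔.chainSet ([] : List (𝓔.Arc × Bool)) ⊆ range b.f := by
      rw [chainSet_nil]; exact empty_subset _
    rcases hx2 with rfl | rfl <;> rcases hy2 with rfl | rfl
    · exact ⟨[], .nil _, c0⟩
    · exact ⟨[(b, true)], .fwd b [] _ hb (.nil _), c1⟩
    · exact ⟨[(b, false)], .bwd b [] _ hb (.nil _), c2⟩
    · exact ⟨[], .nil _, c0⟩

theorem Ref.split (hS : 𝓔.SubArcStmt) (hD : 𝓔.ArcDichStmt) (a : 𝓔.Arc) (s : I) (h0 : 0 < s)
    (h1 : s < 1) (hG : a.f s ∈ 𝓔.G) : ∃ l, Ref [a] l {a.f s} := by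
  obtain ⟨b, b0, b1, b2⟩ := hS a 0 s h0 a.h0 hG
  obtain ⟨c, c0, c1, c2⟩ := hS a s 1 h1 hG a.h1
  have hbr : range b.f ⊆ range a.f := by rw [b2]; exact image_subset_range _ _
  have hcr : range c.f ⊆ range a.f := by rw [c2]; exact image_subset_range _ _
  have hcov : range a.f ⊆ range b.f ∪ range c.f := by
    rintro x ⟨t, rfl⟩
    rcases le_total t s with h | h
    · left; rw [b2]; exact ⟨t, ⟨t.2.1, h⟩, rfl⟩
    · right; rw [c2]; exact ⟨t, ⟨h, t.2.2⟩, rfl⟩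
  have hb : b ∈ [b, c] := by simp
  have hc : c ∈ [b, c] := by simp
  refine ⟨[b, c], ?_, ?_, ?_, ?_, ?_⟩
  · intro _
    unfold EdgeSys.EDisj
    rw [List.pairwise_pair]
    refine disj_E_of (x := a.f s) (y := a.f s) ?_
    rw [b2, c2]
    refine (img_inter a s h0.le h1.le).trans ?_
    simp
  · ext i
    rw [EL_cons, EL_cons, EL_cons]
    simp only [mem_union]
    have : i ∉ 𝓔.EL [] := by simp [EdgeSys.EL]
    constructor
    · rintro (h | h | h)
      · exact Or.inl (E_mono hbr h)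
      · exact Or.inl (E_mono hcr h)
      · exact absurd h this
    · rintro (h | h)
      · rcases hD b i with h2 | h2
        · exact Or.inl h2
        rcases hD c i with h3 | h3
        · exact Or.inr (Or.inl h3)
        exfalso
        obtain ⟨z, hz, -⟩ := exists_other (𝓔 := 𝓔) i (a.f 0) (a.f 0)
        rcases hcov (h hz) with h4 | h4
        · exact Set.disjoint_left.1 h2 hz h4
        · exact Set.disjoint_left.1 h3 hz h4
      · exact absurd h this
  · intro d hd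
    simp only [List.mem_cons, List.not_mem_nil, or_false] at hd
    refine ⟨a, List.mem_singleton.2 rfl, ?_⟩
    rcases hd with rfl | rfl
    · refine ⟨hbr, Or.inr (Or.inr b1), Or.inl b0, Or.inr b1, ?_, ?_⟩
      · intro t ht
        rw [← b0] at ht
        exact d.inj ht
      · intro t ht
        exfalso
        have : d.f t ∈ a.f '' Icc 0 s := b2 ▸ ⟨t, rfl⟩
        obtain ⟨q, hq, hq'⟩ := this
        have : q = 1 := a.inj (hq'.trans ht)
        subst this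
        exact absurd hq.2 (not_le.2 h1)
    · refine ⟨hcr, Or.inr (Or.inl c0), Or.inr c0, Or.inl c1, ?_, ?_⟩
      · intro t ht
        exfalso
        have : d.f t ∈ a.f '' Icc s 1 := c2 ▸ ⟨t, rfl⟩
        obtain ⟨q, hq, hq'⟩ := this
        have : q = 0 := a.inj (hq'.trans ht)
        subst this
        exact absurd hq.1 (not_le.2 h0)
      · intro t ht
        rw [← c1] at ht
        exact d.inj ht
  · intro d hd x hx
    rw [List.mem_singleton] at hd
    subst hd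
    rcases hcov hx with h | h
    · exact ⟨b, hb, h, hbr, Or.inl b0⟩
    · exact ⟨c, hc, h, hcr, Or.inr c0⟩
  · intro d hd x _ y _ hx' hy'
    rw [List.mem_singleton] at hd
    subst hd
    -- everything is joined to the middle point
    have key : ∀ x, (x = d.f 0 ∨ x = d.f 1 ∨ x ∈ ({d.f s} : Set X)) →
        ∃ w, 𝓔.UChain [b, c] x w (d.f s) ∧ 𝓔.chainSet w ⊆ range d.f := by
      intro x hx
      rcases hx with rfl | rfl | hx
      · refine ⟨[(b, true)], ?_, ?_⟩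
        · rw [← b0, ← b1]; exact .fwd b [] _ hb (.nil _)
        · rw [chainSet_cons, chainSet_nil, union_empty]; exact hbr
      · refine ⟨[(c, false)], ?_, ?_⟩
        · rw [← c0, ← c1]; exact .bwd c [] _ hc (.nil _)
        · rw [chainSet_cons, chainSet_nil, union_empty]; exact hcr
      · rw [mem_singleton_iff.1 hx]
        refine ⟨[], .nil _, ?_⟩
        rw [chainSet_nil]; exact empty_subset _
    obtain ⟨w1, hw1, hs1⟩ := key x hx'
    obtain ⟨w2, hw2, hs2⟩ := key y hy'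
    obtain ⟨w3, hw3, hs3⟩ := uchain_reverse hw2
    refine ⟨w1 ++ w3, uchain_append hw1 hw3, ?_⟩
    rw [chainSet_append, hs3]
    exact union_subset hs1 hs2

theorem Ref.one (hS : 𝓔.SubArcStmt) (hD : 𝓔.ArcDichStmt) (x : X) (hx : x ∈ 𝓔.G)
    (l : List 𝓔.Arc) : ∃ l', Ref l l' {x} := by
  induction l with
  | nil => exact ⟨[], Ref.nil _⟩
  | cons a l ih =>
    obtain ⟨l', hl'⟩ := ih
    suffices h : ∃ m, Ref [a] m {x} by
      obtain ⟨m, hm⟩ := h
      exact ⟨m ++ l', hm.append hl'⟩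
    by_cases h : ∀ y ∈ range a.f, y ∈ ({x} : Set X) → y = a.f 0 ∨ y = a.f 1
    · exact ⟨[a], Ref.same a _ h⟩
    · push Not at h
      obtain ⟨y, ⟨s, rfl⟩, hy, h0, h1⟩ := h
      rw [mem_singleton_iff] at hy
      subst hy
      refine Ref.split hS hD a s ?_ ?_ hx
      · exact lt_of_le_of_ne s.2.1 (fun h => h0 (by rw [← h]))
      · exact lt_of_le_of_ne s.2.2 (fun h => h1 (by rw [h]))

theorem Ref.exists (hS : 𝓔.SubArcStmt) (hD : 𝓔.ArcDichStmt) (B : Set X) (hB : B.Finite)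
    (hG : B ⊆ 𝓔.G) (l : List 𝓔.Arc) : ∃ l', Ref l l' B := by
  induction B, hB using Set.Finite.induction_on with
  | empty =>
    have : ∀ l : List 𝓔.Arc, Ref l l (∅ : Set X) := by
      intro l
      induction l with
      | nil => exact Ref.nil _
      | cons a l ih => exact (Ref.same a ∅ (by simp)).append ih
    exact ⟨l, this l⟩
  | @insert x s _ _ ih =>
    obtain ⟨l1, h1⟩ := ih (fun y hy => hG (mem_insert_of_mem _ hy))
    obtain ⟨l2, h2⟩ := Ref.one hS hD x (hG (mem_insert _ _)) l1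
    refine ⟨l2, ?_⟩
    have := h1.trans h2
    rwa [union_singleton] at this

/-! ## FG2 -/

theorem fg2 (hS : 𝓔.SubArcStmt) (hD : 𝓔.ArcDichStmt) : 𝓔.FG2Stmt := by
  intro T l' W B r hr hW hB hWT hWG hE hsm hends hT hpath hBl hBT
  obtain ⟨l, hl⟩ := Ref.exists hS hD B hB (fun x hx => (hBl hx).1) l'
  refine ⟨l, W ∪ B, hW.union hB, subset_union_left, subset_union_right,
    ?_, union_subset hWG (fun x hx => (hBl hx).1), hl.edisj hE, ?_, hl.el, ?_, ?_⟩
  · exact disjoint_union_left.2 ⟨hWT, hBT⟩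
  · intro b hb
    obtain ⟨a, ha, h, -⟩ := hl.sub b hb
    exact ⟨a, ha, h⟩
  · intro b hb
    obtain ⟨a, ha, -, h2, h3, h4, -⟩ := hl.sub b hb
    obtain ⟨e0, e1, e2⟩ := hends a ha
    refine ⟨?_, ?_, ?_⟩
    · rcases h3 with h | h
      · rw [h]
        rcases e0 with e | e
        · exact Or.inl (Or.inl e)
        · exact Or.inr e
      · exact Or.inl (Or.inr h)
    · rcases h4 with h | h
      · rw [h]
        rcases e1 with e | e
        · exact Or.inl (Or.inl e)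
        · exact Or.inr e
      · exact Or.inl (Or.inr h)
    · rcases h2 with ⟨h, h'⟩ | h | h
      · rcases e2 with e | e
        · left; rw [h]; exact Or.inl e
        · right; rw [h']; exact Or.inl e
      · exact Or.inl (Or.inr h)
      · exact Or.inr (Or.inr h)
  · have hW' : ∀ w ∈ W, ∃ w0 : List (𝓔.Arc × Bool), ∃ t ∈ T, 𝓔.UChain l w w0 t ∧
        Small (3 * r) ({w} ∪ 𝓔.chainSet w0) := by
      intro w hw
      obtain ⟨w0, t, ht, h1, h2⟩ := hpath w hw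
      obtain ⟨w1, h3, h4⟩ := hl.refine h1
      exact ⟨w1, t, ht, h3, small_mono (union_subset_union le_rfl h4) h2⟩
    rintro w (hw | hw)
    · obtain ⟨w1, t, ht, h3, h4⟩ := hW' w hw
      exact ⟨w1, t, ht, h3, small_le (by linarith) h4⟩
    · obtain ⟨b, hb, hwb⟩ := (hBl hw).2
      obtain ⟨e, he, heW, hen⟩ : ∃ e ∈ range b.f, e ∈ W ∧ (e = b.f 0 ∨ e = b.f 1 ∨ e ∈ B) := by
        rcases (hends b hb).2.2 with h | h
        · exact ⟨b.f 0, ⟨0, rfl⟩, h, Or.inl rfl⟩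
        · exact ⟨b.f 1, ⟨1, rfl⟩, h, Or.inr (Or.inl rfl)⟩
      obtain ⟨w1, h1, h2⟩ := hl.chain b hb w hwb e he (Or.inr (Or.inr hw)) hen
      obtain ⟨w2, t, ht, h3, h4⟩ := hW' e heW
      refine ⟨w1 ++ w2, t, ht, uchain_append h1 h3, ?_⟩
      rw [chainSet_append]
      have hs := hsm b hb
      have hin : ({w} : Set X) ∪ (𝓔.chainSet w1 ∪ 𝓔.chainSet w2) ⊆
          range b.f ∪ ({e} ∪ 𝓔.chainSet w2) := by
        rintro z (hz | hz | hz)
        · left; rw [mem_singleton_iff.1 hz]; exact hwb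
        · exact Or.inl (h2 hz)
        · exact Or.inr (Or.inr hz)
      have he2 : e ∈ ({e} : Set X) ∪ 𝓔.chainSet w2 := Or.inl rfl
      intro y hy z hz
      rcases hin hy with hy | hy <;> rcases hin hz with hz | hz
      · have := hs y hy z hz
        linarith
      · have a1 := hs y hy e he
        have a2 := h4 e he2 z hz
        have a3 := dist_triangle y e z
        linarith
      · have a1 := hs e he z hz
        have a2 := h4 y hy e he2
        have a3 := dist_triangle y e z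
        linarith
      · have := h4 y hy z hz
        linarith

end Pool.Agent.EU.H42
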