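import Pool.Agent.Helper42_EU.FG

/-! # FG1 -/

open Set Metric Topology unitInterval

noncomputable section

namespace Pool.Agent.EU.H42

universe u v

variable {X : Type u} [MetricSpace X] {ι : Type v} {𝓔 : EdgeSys X ι}

/-- an open edge near a time: from the right -/
theorem near_right {A : 𝓔.Arc} {t : I} {i : ι} (h : A.f t ∈ 𝓔.o i) (ht : t < 1) :
    ∃ s, t < s ∧ A.f s ∈ 𝓔.o i := by
  have hopen : IsOpen (A.f ⁻¹' (𝓔.o i)) := (𝓔.opn i).preimage A.f.continuous
  have hn : A.f ⁻¹' (𝓔.o i) ∈ 𝓝[>] t := nhdsWithin_le_nhds (hopen.mem_nhds h)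
  have hne : (𝓝[>] t).NeBot := nhdsGT_neBot_of_exists_gt ⟨1, ht⟩
  obtain ⟨s, hs, hs'⟩ := hne.nonempty_of_mem (Filter.inter_mem hn self_mem_nhdsWithin)
  exact ⟨s, hs', hs⟩

/-- an open edge near a time: from the left -/
theorem near_left {A : 𝓔.Arc} {t s0 : I} {i : ι} (h : A.f t ∈ 𝓔.o i) (ht : s0 < t) :
    ∃ s, s0 < s ∧ s < t ∧ A.f s ∈ 𝓔.o i := by
  have hopen : IsOpen (A.f ⁻¹' (𝓔.o i)) := (𝓔.opn i).preimage A.f.continuous
  have hn : A.f ⁻¹' (𝓔.o i) ∈ 𝓝[<] t := nhdsWithin_le_nhds (hopen.mem_nhds h)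
  have hm : Ioi s0 ∈ 𝓝[<] t := nhdsWithin_le_nhds (Ioi_mem_nhds ht)
  have hne : (𝓝[<] t).NeBot := nhdsLT_neBot_of_exists_lt ⟨s0, ht⟩
  obtain ⟨s, hs, hs'⟩ := hne.nonempty_of_mem
    (Filter.inter_mem (Filter.inter_mem hn hm) self_mem_nhdsWithin)
  exact ⟨s, hs.2, hs', hs.1⟩

theorem mem_G_iff {x : X} : x ∈ 𝓔.G ↔ ∀ i, x ∉ 𝓔.o i := by
  simp [EdgeSys.G]

/-- the result of the construction of a route along `A` from time `t` -/
structure Route (l' : List 𝓔.Arc) (A : 𝓔.Arc) (M : Set X) (t : I) (segs : List 𝓔.Arc)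
    (H : Set X) : Prop where
  fin : H.Finite
  sub : H ⊆ 𝓔.G
  mem : A.f t ∈ H
  img : H ⊆ A.f '' Icc t 1
  edisj : 𝓔.EDisj segs
  seg : ∀ c ∈ segs, ∃ s s' : I, t ≤ s ∧ s < s' ∧ c.f 0 = A.f s ∧ c.f 1 = A.f s' ∧
    range c.f = A.f '' Icc s s' ∧ A.f s ∈ H ∧ A.f s' ∈ H ∧
    ∀ τ, s < τ → τ < s' → ∀ b ∈ l', A.f τ ∉ range b.f
  path : ∀ Lf : List 𝓔.Arc, (∀ c ∈ segs, c ∈ Lf) →
    (∀ b ∈ l', ∀ x ∈ H, ∀ y ∈ H, x ∈ range b.f → y ∈ range b.f →
      ∃ w, 𝓔.UChain Lf x w y ∧ 𝓔.chainSet w ⊆ range b.f) →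
    ∀ x ∈ H, ∃ w, 𝓔.UChain Lf x w (A.f 1) ∧ 𝓔.chainSet w ⊆ M

theorem Route.one (l' : List 𝓔.Arc) (A : 𝓔.Arc) (M : Set X) :
    Route l' A M 1 [] {A.f 1} := by
  refine ⟨finite_singleton _, ?_, rfl, ?_, List.Pairwise.nil, by simp, ?_⟩
  · intro x hx
    rw [mem_singleton_iff.1 hx]
    exact A.h1
  · intro x hx
    rw [mem_singleton_iff.1 hx]
    exact ⟨1, ⟨le_rfl, le_rfl⟩, rfl⟩
  · intro Lf _ _ x hx
    rw [mem_singleton_iff.1 hx]
    exact ⟨[], .nil _, by rw [chainSet_nil]; exact empty_subset _⟩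

/-- move along an old arc -/
theorem Route.along {l' : List 𝓔.Arc} {A : 𝓔.Arc} {M : Set X} {t t' : I} {segs : List 𝓔.Arc}
    {H : Set X} (h : Route l' A M t' segs H) (htt : t ≤ t') (hG : A.f t ∈ 𝓔.G) (b : 𝓔.Arc)
    (hb : b ∈ l') (h1 : A.f t ∈ range b.f) (h2 : A.f t' ∈ range b.f) (hM : range b.f ⊆ M) :
    Route l' A M t segs (insert (A.f t) H) := by
  refine ⟨h.fin.insert _, insert_subset hG h.sub, mem_insert _ _, ?_, h.edisj, ?_, ?_⟩
  · refine insert_subset ⟨t, ⟨le_rfl, t.2.2⟩, rfl⟩ (h.img.trans ?_)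
    exact image_mono (Icc_subset_Icc_left htt)
  · intro c hc
    obtain ⟨s, s', a1, a2, a3, a4, a5, a6, a7, a8⟩ := h.seg c hc
    exact ⟨s, s', htt.trans a1, a2, a3, a4, a5, mem_insert_of_mem _ a6, mem_insert_of_mem _ a7,
      a8⟩
  · intro Lf hL hc x hx
    have hp := h.path Lf hL (fun b hb x hx y hy => hc b hb x (mem_insert_of_mem _ hx) y
      (mem_insert_of_mem _ hy))
    rcases hx with rfl | hx
    · obtain ⟨w1, a1, a2⟩ := hc b hb _ (mem_insert _ _) (A.f t') (mem_insert_of_mem _ h.mem) h1 h2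
      obtain ⟨w2, a3, a4⟩ := hp _ h.mem
      refine ⟨w1 ++ w2, uchain_append a1 a3, ?_⟩
      rw [chainSet_append]
      exact union_subset (a2.trans hM) a4
    · exact hp x hx

/-- move along a free segment -/
theorem Route.free (hS : 𝓔.SubArcStmt) {l' : List 𝓔.Arc} {A : 𝓔.Arc} {M : Set X} {t t' : I}
    {segs : List 𝓔.Arc}
    {H : Set X} (h : Route l' A M t' segs H) (htt : t < t') (hG : A.f t ∈ 𝓔.G)
    (hfree : ∀ τ, t < τ → τ < t' → ∀ b ∈ l', A.f τ ∉ range b.f) (hM : range A.f ⊆ M) :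
    ∃ segs', Route l' A M t segs' (insert (A.f t) H) := by
  obtain ⟨c, c0, c1, c2⟩ := hS A t t' htt hG (h.sub h.mem)
  refine ⟨c :: segs, h.fin.insert _, insert_subset hG h.sub, mem_insert _ _, ?_, ?_, ?_, ?_⟩
  · refine insert_subset ⟨t, ⟨le_rfl, t.2.2⟩, rfl⟩ (h.img.trans ?_)
    exact image_mono (Icc_subset_Icc_left htt.le)
  · unfold EdgeSys.EDisj
    rw [List.pairwise_cons]
    refine ⟨?_, h.edisj⟩
    intro d hd
    obtain ⟨s, s', a1, a2, a3, a4, a5, a6, a7, a8⟩ := h.seg d hd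
    refine disj_E_of (x := A.f t') (y := A.f t') ?_
    rw [c2, a5]
    have : A.f '' Icc s s' ⊆ A.f '' Icc t' 1 := image_mono (Icc_subset_Icc a1 s'.2.2)
    refine (inter_subset_inter_right _ this).trans ((img_inter A t' htt.le t'.2.2).trans ?_)
    simp
  · intro d hd
    rcases List.mem_cons.1 hd with rfl | hd
    · exact ⟨t, t', le_rfl, htt, c0, c1, c2, mem_insert _ _, mem_insert_of_mem _ h.mem, hfree⟩
    · obtain ⟨s, s', a1, a2, a3, a4, a5, a6, a7, a8⟩ := h.seg d hd
      exact ⟨s, s', htt.le.trans a1, a2, a3, a4, a5, mem_insert_of_mem _ a6,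
        mem_insert_of_mem _ a7, a8⟩
  · intro Lf hL hc x hx
    have hp := h.path Lf (fun d hd => hL d (List.mem_cons_of_mem _ hd))
      (fun b hb x hx y hy => hc b hb x (mem_insert_of_mem _ hx) y (mem_insert_of_mem _ hy))
    rcases hx with rfl | hx
    · obtain ⟨w2, a3, a4⟩ := hp _ h.mem
      refine ⟨(c, true) :: w2, ?_, ?_⟩
      · rw [← c0]
        refine .fwd c w2 _ (hL c List.mem_cons_self) ?_
        rw [c1]
        exact a3
      · rw [chainSet_cons]
        refine union_subset ?_ a4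
        rw [c2]
        exact (image_subset_range _ _).trans hM
    · exact hp x hx

theorem isClosed_range_arc (b : 𝓔.Arc) : IsClosed (range b.f) :=
  (isCompact_range b.f.continuous).isClosed

/-- existence of routes -/
theorem exists_route (hS : 𝓔.SubArcStmt) (hD : 𝓔.ArcDichStmt) (T : Set X) (hT : T.Finite)
    (l' : List 𝓔.Arc) (A : 𝓔.Arc) (h1T : A.f 1 ∈ T) (hA : ∀ t, A.f t ∈ T → t = 1) (M : Set X)
    (hMA : range A.f ⊆ M) (hMb : ∀ b ∈ l', ∀ t, A.f t ∈ range b.f → range b.f ⊆ M) (N : ℕ) :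
    ∀ (u : List 𝓔.Arc), u.length ≤ N → (∀ b ∈ u, b ∈ l') → ∀ t : I, A.f t ∈ 𝓔.G →
      (∀ b ∈ l', b ∉ u → ∀ τ > t, A.f τ ∉ range b.f) → ∃ segs H, Route l' A M t segs H := by
  classical
  induction N with
  | zero =>
    intro u hu hul t hG hfree
    have hu0 : u = [] := List.eq_nil_of_length_eq_zero (Nat.le_zero.1 hu)
    subst hu0
    by_cases ht : t = 1
    · subst ht
      exact ⟨_, _, Route.one l' A M⟩
    · have ht' : t < 1 := lt_of_le_of_ne t.2.2 ht
      obtain ⟨segs, h⟩ := (Route.one l' A M).free hS ht' hG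
        (fun τ h1 _ b hb => hfree b hb (by simp) τ h1) hMA
      exact ⟨_, _, h⟩
  | succ N ih =>
    -- first the case where the point lies on an arc of `u`
    have key : ∀ (u : List 𝓔.Arc), u.length ≤ N + 1 → (∀ b ∈ u, b ∈ l') → ∀ t : I,
        A.f t ∈ 𝓔.G → (∀ b ∈ l', b ∉ u → ∀ τ > t, A.f τ ∉ range b.f) →
        (∃ b ∈ u, A.f t ∈ range b.f) → ∃ segs H, Route l' A M t segs H := by
      rintro u hu hul t hG hfree ⟨b, hb, htb⟩
      -- last time on `b`
      have hcl : IsClosed (A.f ⁻¹' range b.f ∩ Ici t) :=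
        ((isClosed_range_arc b).preimage A.f.continuous).inter isClosed_Ici
      have hcomp : IsCompact (A.f ⁻¹' range b.f ∩ Ici t) := hcl.isCompact
      obtain ⟨t', ⟨ht'b, ht't⟩, hmax⟩ := hcomp.exists_isGreatest ⟨t, htb, Set.mem_Ici.2 (le_refl t)⟩
      have hlast : ∀ τ > t', A.f τ ∉ range b.f := by
        intro τ hτ hτb
        exact absurd (hmax ⟨hτb, ht't.trans (le_of_lt hτ)⟩) (not_le.2 hτ)
      have hG' : A.f t' ∈ 𝓔.G := by
        rw [mem_G_iff]
        intro i hi
        have h1 : t' ≠ 1 := by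
          rintro rfl
          exact mem_G_iff.1 A.h1 i hi
        obtain ⟨s, hs, hsi⟩ := near_right hi (lt_of_le_of_ne t'.2.2 h1)
        have hbi : i ∈ b.E := by
          rcases hD b i with h | h
          · exact h
          · exact absurd ht'b (Set.disjoint_left.1 h hi)
        exact hlast s hs (hbi hsi)
      obtain ⟨segs, H, h⟩ := ih (u.filter (fun c => c ≠ b)) (by
        have : (u.filter (fun c => c ≠ b)).length < u.length := by
          rw [List.length_filter_lt_length_iff_exists]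
          exact ⟨b, hb, by simp⟩
        omega) (fun c hc => hul c (List.mem_filter.1 hc).1) t' hG' (by
        intro c hc hcu τ hτ
        by_cases hcb : c = b
        · subst hcb
          exact hlast τ hτ
        · refine hfree c hc (fun h => hcu ?_) τ (lt_of_le_of_lt ht't hτ)
          exact List.mem_filter.2 ⟨h, by simpa using hcb⟩)
      exact ⟨_, _, h.along ht't hG b (hul b hb) htb ht'b (hMb b (hul b hb) t htb)⟩
    intro u hu hul t hG hfree
    by_cases ht : t = 1
    · subst ht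
      exact ⟨_, _, Route.one l' A M⟩
    have ht' : t < 1 := lt_of_le_of_ne t.2.2 ht
    by_cases hon : ∃ b ∈ u, A.f t ∈ range b.f
    · exact key u hu hul t hG hfree hon
    push Not at hon
    -- first hitting time
    set Z : Set X := T ∪ ⋃ b ∈ {b | b ∈ u}, range b.f with hZ
    have hZcl : IsClosed Z := by
      refine hT.isClosed.union ?_
      refine Set.Finite.isClosed_biUnion (List.finite_toSet u) ?_
      intro b _
      exact isClosed_range_arc b
    have hcl : IsClosed (A.f ⁻¹' Z ∩ Ici t) :=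
      (hZcl.preimage A.f.continuous).inter isClosed_Ici
    obtain ⟨t2, ⟨ht2Z, ht2t⟩, hmin⟩ := hcl.isCompact.exists_isLeast ⟨1, Or.inl h1T, ht'.le⟩
    have htZ : A.f t ∉ Z := by
      rintro (h | h)
      · exact ht (hA t h)
      · simp only [mem_iUnion] at h
        obtain ⟨b, hb, h⟩ := h
        exact hon b hb h
    have htt2 : t < t2 := lt_of_le_of_ne ht2t (fun h => htZ (h ▸ ht2Z))
    have hseg : ∀ τ, t < τ → τ < t2 → ∀ b ∈ l', A.f τ ∉ range b.f := by
      intro τ h1 h2 b hb hτ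
      by_cases hbu : b ∈ u
      · have : τ ∈ A.f ⁻¹' Z ∩ Ici t := by
          refine ⟨Or.inr ?_, h1.le⟩
          simp only [mem_iUnion]
          exact ⟨b, hbu, hτ⟩
        exact absurd (hmin this) (not_le.2 h2)
      · exact hfree b hb hbu τ h1 hτ
    by_cases h2T : A.f t2 ∈ T
    · have : t2 = 1 := hA t2 h2T
      subst this
      obtain ⟨segs, h⟩ := (Route.one l' A M).free hS htt2 hG hseg hMA
      exact ⟨_, _, h⟩
    · have h2u : ∃ b ∈ u, A.f t2 ∈ range b.f := by
        rcases ht2Z with h | h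
        · exact absurd h h2T
        · simp only [mem_iUnion] at h
          obtain ⟨b, hb, h⟩ := h
          exact ⟨b, hb, h⟩
      have hG2 : A.f t2 ∈ 𝓔.G := by
        rw [mem_G_iff]
        intro i hi
        obtain ⟨b, hb, hbt⟩ := h2u
        obtain ⟨s, hs1, hs2, hsi⟩ := near_left hi htt2
        have hbi : i ∈ b.E := by
          rcases hD b i with h | h
          · exact h
          · exact absurd hbt (Set.disjoint_left.1 h hi)
        exact hseg s hs1 hs2 b (hul b hb) (hbi hsi)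
      obtain ⟨segs, H, h⟩ := key u hu hul t2 hG2 (fun b hb hbu τ hτ =>
        hfree b hb hbu τ (lt_trans htt2 hτ)) h2u
      obtain ⟨segs', h'⟩ := h.free hS htt2 hG hseg hMA
      exact ⟨_, _, h'⟩

theorem fg1 (hS : 𝓔.SubArcStmt) (hD : 𝓔.ArcDichStmt) : 𝓔.FG1Stmt := by
  intro T l r hT hr
  induction l with
  | nil =>
    intro _
    refine ⟨[], ∅, finite_empty, disjoint_bot_left, empty_subset _, by simp, List.Pairwise.nil,
      by simp, by simp, by simp, by simp⟩
  | cons A l ih =>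
    intro hl
    obtain ⟨l', W, hW, hWT, hWG, hl0, hE, hrng, hends, hTt, hpath⟩ :=
      ih (fun a ha => hl a (List.mem_cons_of_mem _ ha))
    obtain ⟨hAs, hA1, hAT⟩ := hl A List.mem_cons_self
    have hsm : ∀ b ∈ l', Small r (range b.f) := by
      intro b hb
      obtain ⟨a, ha, hab⟩ := hrng b hb
      exact small_mono hab (hl a (List.mem_cons_of_mem _ ha)).1
    -- the large set
    set M : Set X := {x | ∃ p ∈ range A.f, ∃ Q : Set X, Small r Q ∧ p ∈ Q ∧ x ∈ Q} with hM
    have hMA : range A.f ⊆ M := by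
      intro x hx
      exact ⟨x, hx, range A.f, hAs, hx, hx⟩
    have hMb : ∀ b ∈ l', ∀ t, A.f t ∈ range b.f → range b.f ⊆ M := by
      intro b hb t ht x hx
      exact ⟨A.f t, ⟨t, rfl⟩, range b.f, hsm b hb, ht, hx⟩
    have hMs : Small (3 * r) M := by
      rintro y ⟨p, hp, Q, hQ, hpQ, hyQ⟩ z ⟨p', hp', Q', hQ', hpQ', hzQ'⟩
      have e1 := hQ y hyQ p hpQ
      have e2 := hAs p hp p' hp'
      have e3 := hQ' p' hpQ' z hzQ'
      have e4 := dist_triangle4 y p p' z
      linarith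
    obtain ⟨segs, H, hR⟩ := exists_route hS hD T hT l' A hA1 hAT M hMA hMb l'.length l' le_rfl
      (fun b hb => hb) 0 A.h0 (fun b hb hb' => absurd hb hb')
    set B : Set X := H \ T with hBdef
    have hBfin : B.Finite := hR.fin.subset diff_subset
    have hBG : B ⊆ 𝓔.G := diff_subset.trans hR.sub
    obtain ⟨L, hL⟩ := Ref.exists hS hD B hBfin hBG l'
    have hHT : ∀ x ∈ H, x ∈ T ∨ x ∈ B := by
      intro x hx
      by_cases h : x ∈ T
      · exact Or.inl h
      · exact Or.inr ⟨hx, h⟩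
    have hpathH := hR.path (L ++ segs) (fun c hc => List.mem_append.2 (Or.inr hc)) (by
      intro b hb x hx y hy hxb hyb
      have node : ∀ x ∈ H, x ∈ range b.f → x = b.f 0 ∨ x = b.f 1 ∨ x ∈ B := by
        intro x hx hxb
        rcases hHT x hx with h | h
        · obtain ⟨τ, rfl⟩ := hxb
          rcases hTt b hb τ h with h' | h'
          · left; rw [h']
          · right; left; rw [h']
        · exact Or.inr (Or.inr h)
      obtain ⟨w, h1, h2⟩ := hL.chain b hb x hxb y hyb (node x hx hxb) (node y hy hyb)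
      exact ⟨w, uchain_mono (fun c hc => List.mem_append.2 (Or.inl hc)) h1, h2⟩)
    have hA0B : A.f 0 ∈ B := by
      refine ⟨hR.mem, fun h => ?_⟩
      have := hAT 0 h
      exact absurd this (by norm_num)
    refine ⟨L ++ segs, W ∪ B, hW.union hBfin, ?_, union_subset hWG hBG, ?_, ?_, ?_, ?_, ?_, ?_⟩
    · refine disjoint_union_left.2 ⟨hWT, ?_⟩
      exact disjoint_sdiff_left
    · intro a ha
      rcases List.mem_cons.1 ha with rfl | ha
      · exact Or.inr hA0B
      · exact Or.inl (hl0 a ha)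
    · unfold EdgeSys.EDisj
      rw [List.pairwise_append]
      refine ⟨hL.edisj hE, hR.edisj, ?_⟩
      intro b hb c hc
      obtain ⟨b', hb', hbb, -⟩ := hL.sub b hb
      obtain ⟨s, s', -, a2, a3, a4, a5, -, -, a8⟩ := hR.seg c hc
      refine disj_E_of (x := A.f s) (y := A.f s') ?_
      rintro x ⟨hx1, hx2⟩
      rw [a5] at hx2
      obtain ⟨τ, hτ, rfl⟩ := hx2
      by_cases h1 : τ = s
      · left; rw [h1]
      by_cases h2 : τ = s'
      · right; rw [h2]; rfl
      exact absurd (hbb hx1) (a8 τ (lt_of_le_of_ne hτ.1 (Ne.symm h1))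
        (lt_of_le_of_ne hτ.2 h2) b' hb')
    · intro b hb
      rcases List.mem_append.1 hb with hb | hb
      · obtain ⟨b', hb', hbb, -⟩ := hL.sub b hb
        obtain ⟨a, ha, h⟩ := hrng b' hb'
        exact ⟨a, List.mem_cons_of_mem _ ha, hbb.trans h⟩
      · obtain ⟨s, s', -, a2, a3, a4, a5, -, -, a8⟩ := hR.seg b hb
        exact ⟨A, List.mem_cons_self, by rw [a5]; exact image_subset_range _ _⟩
    · intro b hb
      rcases List.mem_append.1 hb with hb | hb
      · obtain ⟨a, ha, -, h2, h3, h4, -⟩ := hL.sub b hb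
        obtain ⟨e0, e1, e2⟩ := hends a ha
        refine ⟨?_, ?_, ?_⟩
        · rcases h3 with h | h
          · rw [h]
            rcases e0 with e | e
            · exact Or.inl (Or.inl e)
            · exact Or.inr e
          · exact Or.inl (Or.inr h)
        · rcases h4 with h | h
          · rw [h]
            rcases e1 with e | e
            · exact Or.inl (Or.inl e)
            · exact Or.inr e
          · exact Or.inl (Or.inr h)
        · rcases h2 with ⟨h, h'⟩ | h | h
          · rcases e2 with e | e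
            · left; rw [h]; exact Or.inl e
            · right; rw [h']; exact Or.inl e
          · exact Or.inl (Or.inr h)
          · exact Or.inr (Or.inr h)
      · obtain ⟨s, s', -, a2, a3, a4, a5, a6, a7, a8⟩ := hR.seg b hb
        have hs : A.f s ∈ B := by
          refine ⟨a6, fun h => ?_⟩
          have := hAT s h
          subst this
          exact absurd s'.2.2 (not_le.2 a2)
        refine ⟨?_, ?_, ?_⟩
        · rw [a3]; exact Or.inl (Or.inr hs)
        · rw [a4]
          rcases hHT _ a7 with h | h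
          · exact Or.inr h
          · exact Or.inl (Or.inr h)
        · left; rw [a3]; exact Or.inr hs
    · intro b hb t ht
      rcases List.mem_append.1 hb with hb | hb
      · obtain ⟨a, ha, h1, -, -, -, h5, h6⟩ := hL.sub b hb
        obtain ⟨τ, hτ⟩ := h1 ⟨t, rfl⟩
        rcases hTt a ha τ (hτ ▸ ht) with h | h
        · left; exact h5 t (by rw [← hτ, h])
        · right; exact h6 t (by rw [← hτ, h])
      · obtain ⟨s, s', -, a2, a3, a4, a5, a6, a7, a8⟩ := hR.seg b hb
        have : b.f t ∈ A.f '' Icc s s' := a5 ▸ ⟨t, rfl⟩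
        obtain ⟨τ, hτ, hτt⟩ := this
        have hτ1 := hAT τ (hτt ▸ ht)
        right
        have : s' = 1 := le_antisymm s'.2.2 (hτ1 ▸ hτ.2)
        apply b.inj
        rw [a4, ← hτt, hτ1, this]
    · rintro w (hw | hw)
      · obtain ⟨w0, t, ht, h1, h2⟩ := hpath w hw
        obtain ⟨w1, h3, h4⟩ := hL.refine h1
        exact ⟨w1, t, ht, uchain_mono (fun c hc => List.mem_append.2 (Or.inl hc)) h3,
          small_mono (union_subset_union le_rfl h4) h2⟩
      · obtain ⟨w1, h1, h2⟩ := hpathH w hw.1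
        refine ⟨w1, A.f 1, hA1, h1, small_mono ?_ hMs⟩
        refine union_subset ?_ h2
        intro x hx
        rw [mem_singleton_iff.1 hx]
        have := hR.img hw.1
        exact hMA ((image_subset_range _ _) this)

end Pool.Agent.EU.H42
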