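import Pool.Agent.Helper17_EU.StmtsF
import Pool.Agent.Helper17_EU.StmtsT

/-! # HARR: from tours to strongly irreducible maps

Baire category in the space of closed surjective curves. -/

open Set Metric Topology unitInterval

noncomputable section

namespace Pool.Agent.EU.H42

open Pool.Agent.EU EdgeSys

universe u v

variable {X : Type u} [MetricSpace X]

/-! ## thin closed sets -/

/-- closed set without nonempty open subsets contained in `O` -/
def NoInt (O A : Set X) : Prop := IsClosed A ∧ ∀ V ⊆ O, IsOpen V → V.Nonempty → ¬ V ⊆ A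

theorem NoInt.union {O A B : Set X} (hA : NoInt O A) (hB : NoInt O B) : NoInt O (A ∪ B) := by
  refine ⟨hA.1.union hB.1, ?_⟩
  intro V hVO hV hne hsub
  by_cases h : (V \ A).Nonempty
  · refine hB.2 (V \ A) (fun x hx => hVO hx.1) (hV.sdiff hA.1) h ?_
    intro x hx
    rcases hsub hx.1 with h1 | h1
    · exact absurd h1 hx.2
    · exact h1
  · refine hA.2 V hVO hV hne ?_
    intro x hx
    by_contra hxA
    exact h ⟨x, hx, hxA⟩

theorem NoInt.empty (O : Set X) : NoInt O (∅ : Set X) := by
  refine ⟨isClosed_empty, ?_⟩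
  rintro V _ _ ⟨x, hx⟩ hsub
  exact hsub hx

theorem NoInt.biUnion {O : Set X} {A : ℕ → Set X} (P : ℕ → Prop) (h : ∀ j, P j → NoInt O (A j)) :
    ∀ n : ℕ, NoInt O {x | ∃ j < n, P j ∧ x ∈ A j} := by
  intro n
  induction n with
  | zero =>
    have : {x | ∃ j < 0, P j ∧ x ∈ A j} = (∅ : Set X) := by
      ext x
      simp
    rw [this]
    exact NoInt.empty O
  | succ n ih =>
    by_cases hn : P n
    · have : {x | ∃ j < n + 1, P j ∧ x ∈ A j} = {x | ∃ j < n, P j ∧ x ∈ A j} ∪ A n := by
        ext x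
        simp only [mem_ofPred_eq, mem_union]
        constructor
        · rintro ⟨j, hj, hP, hx⟩
          rcases Nat.lt_succ_iff_lt_or_eq.1 hj with h1 | h1
          · exact Or.inl ⟨j, h1, hP, hx⟩
          · subst h1
            exact Or.inr hx
        · rintro (⟨j, hj, hP, hx⟩ | hx)
          · exact ⟨j, by omega, hP, hx⟩
          · exact ⟨n, by omega, hn, hx⟩
      rw [this]
      exact ih.union (h n hn)
    · have : {x | ∃ j < n + 1, P j ∧ x ∈ A j} = {x | ∃ j < n, P j ∧ x ∈ A j} := by
        ext x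
        simp only [mem_ofPred_eq]
        constructor
        · rintro ⟨j, hj, hP, hx⟩
          rcases Nat.lt_succ_iff_lt_or_eq.1 hj with h1 | h1
          · exact ⟨j, h1, hP, hx⟩
          · subst h1
            exact absurd hP hn
        · rintro ⟨j, hj, hP, hx⟩
          exact ⟨j, by omega, hP, hx⟩
      rw [this]
      exact ih

/-- affine homeomorphism onto the unit open interval -/
def affI {c d : I} (h : c < d) : Ioo c d ≃ₜ Ioo (0 : ℝ) 1 where
  toFun t := ⟨(((t : I) : ℝ) - c) / (d - c), by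
    have h1 : (0 : ℝ) < d - c := sub_pos.2 h
    have h2 : (c : ℝ) < ((t : I) : ℝ) := t.2.1
    have h3 : ((t : I) : ℝ) < (d : ℝ) := t.2.2
    constructor
    · apply div_pos <;> linarith
    · rw [div_lt_one h1]; linarith⟩
  invFun t := ⟨⟨c + (d - c) * t, by
      have h1 : (0 : ℝ) < d - c := sub_pos.2 h
      have h2 := t.2.1
      have h3 := t.2.2
      have h4 := c.2.1
      have h5 := d.2.2
      constructor
      · nlinarith
      · nlinarith⟩, by
    have h1 : (0 : ℝ) < d - c := sub_pos.2 h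
    have h2 := t.2.1
    have h3 := t.2.2
    constructor
    · show (c : ℝ) < c + (d - c) * t
      nlinarith
    · show (c : ℝ) + (d - c) * t < d
      nlinarith⟩
  left_inv t := by
    have h1 : (d : ℝ) - c ≠ 0 := (sub_pos.2 (show (c : ℝ) < d from h)).ne'
    ext
    simp only
    field_simp
    ring
  right_inv t := by
    have h1 : (d : ℝ) - c ≠ 0 := (sub_pos.2 (show (c : ℝ) < d from h)).ne'
    ext
    simp only
    field_simp
    ring
  continuous_toFun := by fun_prop
  continuous_invFun := by fun_prop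

theorem noInt_arc {O : Set X}
    (hO : ∀ e ⊆ O, IsOpen e → IsEmpty (e ≃ₜ Ioo (0 : ℝ) 1)) (a : C(I, X))
    (ha : Function.Injective a) : NoInt O (range a) := by
  refine ⟨(isCompact_range a.continuous).isClosed, ?_⟩
  intro V hVO hV hne hsub
  have hP : IsOpen (a ⁻¹' V) := hV.preimage a.continuous
  have hPne : (a ⁻¹' V).Nonempty := by
    obtain ⟨x, hx⟩ := hne
    obtain ⟨s, rfl⟩ := hsub hx
    exact ⟨s, hx⟩
  obtain ⟨c, d, hcd, hsub'⟩ := hP.exists_Ioo_subset hPne
  have he : a '' Ioo c d = V \ a '' (Ioo c d)ᶜ := by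
    ext x
    constructor
    · rintro ⟨s, hs, rfl⟩
      refine ⟨hsub' hs, ?_⟩
      rintro ⟨s', hs', h⟩
      rw [ha h] at hs'
      exact hs' hs
    · rintro ⟨hx, hx'⟩
      obtain ⟨s, rfl⟩ := hsub hx
      by_contra h
      refine hx' ⟨s, ?_, rfl⟩
      intro hs
      exact h ⟨s, hs, rfl⟩
  have hopen : IsOpen (a '' Ioo c d) := by
    rw [he]
    exact hV.sdiff ((isOpen_Ioo.isClosed_compl.isCompact.image a.continuous).isClosed)
  have hemb : IsEmbedding a := (a.continuous.isClosedEmbedding ha).isEmbedding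
  have hsubO : a '' Ioo c d ⊆ O := by
    rw [he]
    exact fun x hx => hVO hx.1
  exact (hO _ hsubO hopen).false ((hemb.homeomorphImage (Ioo c d)).symm.trans (affI hcd))

theorem noInt_point [CompactSpace X] [ConnectedSpace X] [Nontrivial X] (O : Set X) (x : X) :
    NoInt O ({x} : Set X) := by
  refine ⟨isClosed_singleton, ?_⟩
  intro V _ hV hne hsub
  have hVx : V = {x} := by
    apply Subset.antisymm hsub
    obtain ⟨y, hy⟩ := hne
    have : y = x := hsub hy
    rw [← this]
    exact singleton_subset_iff.2 hy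
  rw [hVx] at hV
  have hcl : IsClopen ({x} : Set X) := ⟨isClosed_singleton, hV⟩
  rcases isClopen_iff.1 hcl with h | h
  · exact (singleton_ne_empty x) h
  · obtain ⟨y, hy⟩ := exists_ne x
    have : y ∈ ({x} : Set X) := by
      rw [h]
      trivial
    exact hy this

/-! ## paths -/

theorem lpc_of_surj [CompactSpace X] (h : C(I, X)) (hs : Function.Surjective h) :
    LocallyPathConnectedSpace X := by
  have : LocallyPathConnectedSpace I := (convex_Icc (0 : ℝ) 1).locallyPathConnectedSpace
  exact (h.continuous.isClosedMap.isQuotientMap h.continuous hs).locallyPathConnectedSpace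

theorem exists_thin_path [CompactSpace X] [ConnectedSpace X] [Nontrivial X] {O : Set X}
    (hO : ∀ e ⊆ O, IsOpen e → IsEmpty (e ≃ₜ Ioo (0 : ℝ) 1)) (hPA : PathArcStmt X)
    {U : Set X} (hU : IsPathConnected U) {x y : X} (hx : x ∈ U) (hy : y ∈ U) :
    ∃ p : C(I, X), p 0 = x ∧ p 1 = y ∧ range p ⊆ U ∧ NoInt O (range p) := by
  by_cases hxy : x = y
  · subst hxy
    refine ⟨ContinuousMap.const I x, rfl, rfl, ?_, ?_⟩
    · rintro _ ⟨t, rfl⟩
      exact hx
    · have : range (ContinuousMap.const I x) = ({x} : Set X) := by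
        ext z
        simp [eq_comm]
      rw [this]
      exact noInt_point O x
  · obtain ⟨γ, hγ⟩ := hU.joinedIn x hx y hy
    obtain ⟨g, hg, hg0, hg1, hgr⟩ := hPA (γ : C(I, X)) (by simpa using hxy)
    refine ⟨g, by simpa using hg0, by simpa using hg1, ?_, noInt_arc hO g hg⟩
    rintro z hz
    obtain ⟨t, rfl⟩ := hgr hz
    exact hγ t

theorem exists_cover_path {U : Set X} (hU : IsPathConnected U) (l : List C(I, X))
    (hl : ∀ f ∈ l, range f ⊆ U) : ∀ {x y : X}, x ∈ U → y ∈ U →
    ∃ γ : Path x y, range γ ⊆ U ∧ ∀ f ∈ l, range f ⊆ range γ := by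
  induction l with
  | nil =>
    intro x y hx hy
    obtain ⟨γ, hγ⟩ := hU.joinedIn x hx y hy
    exact ⟨γ, by rintro _ ⟨t, rfl⟩; exact hγ t, by simp⟩
  | cons f l ih =>
    intro x y hx hy
    have hf : range f ⊆ U := hl f (by simp)
    obtain ⟨γ', h1, h2⟩ := ih (fun g hg => hl g (by simp [hg])) (hf ⟨1, rfl⟩) hy
    obtain ⟨γ, hγ⟩ := hU.joinedIn x hx (f 0) (hf ⟨0, rfl⟩)
    let φ : Path (f 0) (f 1) := ⟨f, rfl, rfl⟩
    refine ⟨(γ.trans φ).trans γ', ?_, ?_⟩
    · rw [Path.trans_range, Path.trans_range]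
      refine union_subset (union_subset ?_ hf) h1
      rintro _ ⟨t, rfl⟩
      exact hγ t
    · intro g hg
      rw [Path.trans_range, Path.trans_range]
      rcases List.mem_cons.1 hg with rfl | hg
      · exact fun z hz => Or.inl (Or.inr hz)
      · exact fun z hz => Or.inr (h2 g hg hz)

/-- reparametrised restriction of a curve to an interval -/
theorem exists_restrict (g : C(I, X)) {s t : I} (hst : s ≤ t) :
    ∃ f : C(I, X), f 0 = g s ∧ f 1 = g t ∧ range f = g '' Icc s t := by
  have hst' : (s : ℝ) ≤ t := hst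
  let ψ : C(I, I) := ⟨fun u => ⟨s + (t - s) * u, by
      have h1 := u.2.1
      have h2 := u.2.2
      have h3 := s.2.1
      have h4 := t.2.2
      constructor <;> nlinarith⟩, by fun_prop⟩
  refine ⟨g.comp ψ, ?_, ?_, ?_⟩
  · have : ψ 0 = s := by
      ext
      simp [ψ]
    simp [this]
  · have : ψ 1 = t := by
      ext
      simp [ψ]
    simp [this]
  · ext z
    constructor
    · rintro ⟨u, rfl⟩
      refine ⟨ψ u, ⟨?_, ?_⟩, rfl⟩
      · show (s : ℝ) ≤ s + (t - s) * u
        have h1 := u.2.1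
        nlinarith
      · show (s : ℝ) + (t - s) * u ≤ t
        have h1 := u.2.1
        have h2 := u.2.2
        nlinarith
    · rintro ⟨τ, ⟨h1, h2⟩, rfl⟩
      have h1' : (s : ℝ) ≤ τ := h1
      have h2' : (τ : ℝ) ≤ t := h2
      rcases eq_or_lt_of_le hst' with h | h
      · refine ⟨0, ?_⟩
        have : ψ 0 = τ := by
          ext
          simp [ψ]
          linarith
        simp [this]
      · have hpos : (0 : ℝ) < t - s := sub_pos.2 h
        refine ⟨⟨(τ - s) / (t - s), ⟨by apply div_nonneg <;> linarith, by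
          rw [div_le_one hpos]; linarith⟩⟩, ?_⟩
        have : ψ ⟨(τ - s) / (t - s), ⟨by apply div_nonneg <;> linarith, by
          rw [div_le_one hpos]; linarith⟩⟩ = τ := by
          ext
          simp only [ψ, ContinuousMap.coe_mk]
          field_simp
          ring
        simp [this]

/-- replace a curve on an interval -/
theorem exists_modify (g : C(I, X)) {s t : I} (hst : s ≤ t) (p : C(I, X)) (hp0 : p 0 = g s)
    (hp1 : p 1 = g t) : ∃ g1 : C(I, X), (∀ τ, τ ∉ Ioo s t → g1 τ = g τ) ∧
      (∀ τ ∈ Icc s t, g1 τ ∈ range p) ∧ (s < t → range p ⊆ g1 '' Icc s t) := by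
  rcases eq_or_lt_of_le hst with h | h
  · subst h
    refine ⟨g, fun _ _ => rfl, ?_, fun h => absurd h (lt_irrefl _)⟩
    rintro τ ⟨h1, h2⟩
    have : τ = s := le_antisymm h2 h1
    rw [this, ← hp0]
    exact ⟨0, rfl⟩
  · have h' : (s : ℝ) < t := h
    have hpos : (0 : ℝ) < t - s := sub_pos.2 h'
    let ψ : I → I := fun τ => projIcc (0 : ℝ) 1 zero_le_one (((τ : ℝ) - s) / (t - s))
    have hψ : Continuous ψ := by
      apply continuous_projIcc.comp
      fun_prop
    have hψs : ψ s = 0 := by
      simp [ψ]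
    have hψt : ψ t = 1 := by
      simp only [ψ]
      rw [div_self hpos.ne']
      simp
    have hψmid : ∀ u : I, ∃ τ ∈ Icc s t, ψ τ = u := by
      intro u
      have h1 := u.2.1
      have h2 := u.2.2
      have h3 := s.2.1
      have h4 := t.2.2
      refine ⟨⟨s + (t - s) * u, ⟨by nlinarith, by nlinarith⟩⟩, ⟨?_, ?_⟩, ?_⟩
      · show (s : ℝ) ≤ s + (t - s) * u
        nlinarith
      · show (s : ℝ) + (t - s) * u ≤ t
        nlinarith
      · simp only [ψ]
        have : ((s : ℝ) + (t - s) * u - s) / (t - s) = u := by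
          field_simp
          ring
        rw [this]
        simp
    classical
    let G : I → X := fun τ => if τ ≤ s then g τ else if τ ≤ t then p (ψ τ) else g τ
    have hG : Continuous G := by
      refine Continuous.if_le g.continuous ?_ continuous_id continuous_const ?_
      · refine Continuous.if_le (p.continuous.comp hψ) g.continuous continuous_id
          continuous_const ?_
        intro x hx
        have : x = t := hx
        subst this
        show p (ψ x) = g x
        rw [hψt, hp1]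
      · intro x hx
        have : x = s := hx
        subst this
        show g x = if x ≤ t then p (ψ x) else g x
        rw [if_pos h.le, hψs, hp0]
    have hGmid : ∀ τ ∈ Icc s t, G τ = p (ψ τ) := by
      rintro τ ⟨h1, h2⟩
      simp only [G]
      split_ifs with h3
      · have : τ = s := le_antisymm h3 h1
        rw [this, hψs, hp0]
      · rfl
    refine ⟨⟨G, hG⟩, ?_, ?_, ?_⟩
    · intro τ hτ
      show G τ = g τ
      simp only [G]
      split_ifs with h1 h2
      · rfl
      · have h3 : τ = t := by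
          by_contra h4
          exact hτ ⟨not_le.1 h1, lt_of_le_of_ne h2 h4⟩
        rw [h3, hψt, hp1]
      · rfl
    · intro τ hτ
      exact ⟨ψ τ, (hGmid τ hτ).symm⟩
    · intro _
      rintro _ ⟨u, rfl⟩
      obtain ⟨τ, hτ, rfl⟩ := hψmid u
      exact ⟨τ, hτ, hGmid τ hτ⟩

theorem exists_modify_many (g : C(I, X)) (t : ℕ → I) (ht : Monotone t) (R : ℕ → Prop)
    (p : ℕ → C(I, X)) (hp : ∀ j, R j → p j 0 = g (t j) ∧ p j 1 = g (t (j + 1))) :
    ∀ n : ℕ, ∃ g1 : C(I, X),
      (∀ τ, (∀ j < n, R j → τ ∉ Ioo (t j) (t (j + 1))) → g1 τ = g τ) ∧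
      (∀ j < n, R j → ∀ τ ∈ Icc (t j) (t (j + 1)), g1 τ ∈ range (p j)) ∧
      (∀ j < n, R j → t j < t (j + 1) → range (p j) ⊆ g1 '' Icc (t j) (t (j + 1))) := by
  intro n
  induction n with
  | zero => exact ⟨g, fun _ _ => rfl, by simp, by simp⟩
  | succ n ih =>
    obtain ⟨g1, h1, h2, h3⟩ := ih
    by_cases hR : R n
    · have e0 : g1 (t n) = g (t n) := by
        apply h1
        intro j hj _ hmem
        exact absurd (ht (Nat.succ_le_of_lt hj)) (not_le.2 hmem.2)
      have e1 : g1 (t (n + 1)) = g (t (n + 1)) := by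
        apply h1
        intro j hj _ hmem
        exact absurd (ht (show j + 1 ≤ n + 1 by omega)) (not_le.2 hmem.2)
      obtain ⟨g2, k1, k2, k3⟩ := exists_modify g1 (ht (Nat.le_succ n)) (p n)
        (by rw [(hp n hR).1]; exact e0.symm) (by rw [(hp n hR).2]; exact e1.symm)
      have hout : ∀ j < n, ∀ τ ∈ Icc (t j) (t (j + 1)), g2 τ = g1 τ := by
        intro j hj τ hτ
        apply k1
        intro hmem
        exact absurd (hτ.2.trans (ht (Nat.succ_le_of_lt hj))) (not_le.2 hmem.1)
      refine ⟨g2, ?_, ?_, ?_⟩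
      · intro τ hτ
        rw [k1 τ (hτ n (Nat.lt_succ_self n) hR)]
        exact h1 τ (fun j hj hRj => hτ j (by omega) hRj)
      · intro j hj hRj τ hτ
        rcases Nat.lt_succ_iff_lt_or_eq.1 hj with hj' | hj'
        · rw [hout j hj' τ hτ]
          exact h2 j hj' hRj τ hτ
        · subst hj'
          exact k2 τ hτ
      · intro j hj hRj hlt
        rcases Nat.lt_succ_iff_lt_or_eq.1 hj with hj' | hj'
        · intro z hz
          obtain ⟨τ, hτ, rfl⟩ := h3 j hj' hRj hlt hz
          exact ⟨τ, hτ, hout j hj' τ hτ⟩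
        · subst hj'
          exact k3 hlt
    · refine ⟨g1, ?_, ?_, ?_⟩
      · intro τ hτ
        exact h1 τ (fun j hj hRj => hτ j (by omega) hRj)
      · intro j hj hRj
        rcases Nat.lt_succ_iff_lt_or_eq.1 hj with hj' | hj'
        · exact h2 j hj' hRj
        · subst hj'
          exact absurd hRj hR
      · intro j hj hRj
        rcases Nat.lt_succ_iff_lt_or_eq.1 hj with hj' | hj'
        · exact h3 j hj' hRj
        · subst hj'
          exact absurd hRj hR

/-- location of a point in a partition -/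
theorem exists_piece {t : ℕ → I} (h0 : t 0 = 0) {N : ℕ} (hN : ∀ m ≥ N, t m = 1) (τ : I) :
    ∃ n < N, τ ∈ Icc (t n) (t (n + 1)) ∧ (τ < 1 → τ < t (n + 1)) := by
  classical
  have hNpos : 0 < N := by
    rcases Nat.eq_zero_or_pos N with h | h
    · subst h
      have := hN 0 le_rfl
      rw [h0] at this
      exact absurd this zero_ne_one
    · exact h
  rcases eq_or_lt_of_le (show τ ≤ 1 from τ.2.2) with h1 | h1
  · -- τ = 1
    have h1' : τ = 1 := h1
    have hex : ∃ n, t (n + 1) = 1 := ⟨N - 1, by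
      rw [Nat.sub_add_cancel hNpos]
      exact hN N le_rfl⟩
    refine ⟨N - 1, by omega, ⟨?_, ?_⟩, fun h => absurd h1' h.ne⟩
    · rw [h1']
      exact (t (N - 1)).2.2
    · rw [Nat.sub_add_cancel hNpos, hN N le_rfl]
      exact τ.2.2
  · have h1' : τ < 1 := h1
    have hex : ∃ n, τ < t n := ⟨N, by rw [hN N le_rfl]; exact h1'⟩
    have hn := Nat.find_spec hex
    have hmin : ∀ m < Nat.find hex, ¬ τ < t m := fun m hm => Nat.find_min hex hm
    set n := Nat.find hex with hndef
    have hnpos : 0 < n := by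
      rcases Nat.eq_zero_or_pos n with h | h
      · rw [h, h0] at hn
        exact absurd hn (not_lt.2 τ.2.1)
      · exact h
    have hnN : n ≤ N := by
      apply Nat.find_min' hex
      rw [hN N le_rfl]
      exact h1'
    refine ⟨n - 1, by omega, ⟨?_, ?_⟩, ?_⟩
    · exact not_lt.1 (hmin (n - 1) (by omega))
    · rw [Nat.sub_add_cancel hnpos]
      exact hn.le
    · intro _
      rw [Nat.sub_add_cancel hnpos]
      exact hn


/-! ## the perturbation lemma -/

section perturb

variable {ι : Type v} (𝓔 : EdgeSys X ι)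

/-- the complement of the closure of the union of the edges -/
def OO : Set X := (closure (⋃ i, 𝓔.o i))ᶜ

/-- curves which agree with `h` over the closure of the edges -/
structure Adm (h g : C(I, X)) : Prop where
  e : g 0 = g 1
  s : Function.Surjective g
  a : ∀ t, h t ∉ OO 𝓔 → g t = h t
  b : ∀ t, h t ∈ OO 𝓔 → g t ∈ OO 𝓔

variable {𝓔}

theorem perturb [CompactSpace X] [ConnectedSpace X] [LocallyConnectedSpace X] [Nontrivial X]
    (hPA : PathArcStmt X) {h : C(I, X)} (hh : 𝓔.IsTour (OO 𝓔) h)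
    (hO : ∀ e ⊆ OO 𝓔, IsOpen e → IsEmpty (e ≃ₜ Ioo (0 : ℝ) 1)) {g : C(I, X)}
    (hg : Adm 𝓔 h g) {ε : ℝ} (hε : 0 < ε) {J : Set I} (hJ : IsOpen J) (hJne : J.Nonempty) :
    ∃ g' : C(I, X), Adm 𝓔 h g' ∧ (∀ t, dist (g' t) (g t) ≤ ε) ∧ g' '' Jᶜ ≠ univ := by
  have hOopen : IsOpen (OO 𝓔) := isClosed_closure.isOpen_compl
  by_cases hc : ∃ t ∈ J, ∃ i, h t ∈ 𝓔.o i
  · -- edges
    obtain ⟨t, htJ, i, hti⟩ := hc
    refine ⟨g, hg, fun t => by simp [hε.le], ?_⟩
    have hoR : ∀ x ∈ 𝓔.o i, x ∉ OO 𝓔 := by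
      intro x hx hx'
      exact hx' (subset_closure (mem_iUnion.2 ⟨i, hx⟩))
    have hgt : g t = h t := hg.a t (hoR _ hti)
    intro huniv
    have : g t ∈ g '' Jᶜ := by
      rw [huniv]
      trivial
    obtain ⟨s, hsJ, hs⟩ := this
    have hsO : h s ∉ OO 𝓔 := by
      intro hs'
      have := hg.b s hs'
      rw [hs, hgt] at this
      exact hoR _ hti this
    have hsh : h s = h t := by
      rw [← hg.a s hsO, hs, hgt]
    obtain ⟨a, b, _, hab, hinj⟩ := hh.2.2.1 i
    have h1 : t ∈ Ioo a b := by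
      rw [← hab]
      exact hti
    have h2 : s ∈ Ioo a b := by
      rw [← hab]
      show h s ∈ 𝓔.o i
      rw [hsh]
      exact hti
    have := hinj h2 h1 hsh
    rw [this] at hsJ
    exact hsJ htJ
  · -- a point of `O`
    have hJO : ∀ J' ⊆ J, IsOpen J' → J'.Nonempty → ∃ t ∈ J', h t ∈ OO 𝓔 := by
      intro J' hsub hop hne
      obtain ⟨t, ht, ht'⟩ := hh.2.2.2 J' hop hne
      rcases ht' with h1 | h1
      · obtain ⟨i, hi⟩ := mem_iUnion.1 h1
        exact absurd ⟨t, hsub ht, i, hi⟩ hc
      · exact ⟨t, ht, h1⟩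
    obtain ⟨c, d, hcd, hsubJ⟩ := hJ.exists_Ioo_subset hJne
    obtain ⟨t0, ht0, ht0O⟩ := hJO (Ioo c d) hsubJ isOpen_Ioo (nonempty_Ioo.2 hcd)
    have ht0J : t0 ∈ J := hsubJ ht0
    have ht01 : t0 < 1 := lt_of_lt_of_le ht0.2 d.2.2
    set x0 := g t0 with hx0
    have hx0O : x0 ∈ OO 𝓔 := hg.b t0 ht0O
    -- the neighbourhoods
    obtain ⟨ε', hε', hball⟩ : ∃ ε' > 0, ball x0 ε' ⊆ OO 𝓔 := Metric.isOpen_iff.1 hOopen x0 hx0O
    have hlpc : LocallyPathConnectedSpace X := lpc_of_surj g hg.s
    set V := ball x0 (min ε' (ε / 2)) with hV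
    have hVmem : V ∈ 𝓝 x0 := ball_mem_nhds x0 (by positivity)
    obtain ⟨U, ⟨hUop, hx0U, hUpc⟩, hUV⟩ := (isOpen_isPathConnected_basis x0).mem_iff.1 hVmem
    have hUO : U ⊆ OO 𝓔 := fun x hx => hball (ball_subset_ball (min_le_left _ _) (hUV hx))
    have hUd : ∀ x ∈ U, ∀ y ∈ U, dist x y ≤ ε := by
      intro x hx y hy
      have h1 : dist x x0 < min ε' (ε / 2) := hUV hx
      have h2 : dist y x0 < min ε' (ε / 2) := hUV hy
      have h3 : min ε' (ε / 2) ≤ ε / 2 := min_le_right _ _
      have h4 := dist_triangle_right x y x0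
      linarith
    obtain ⟨r, hr, hrU⟩ : ∃ r > 0, ball x0 (2 * r) ⊆ U := by
      obtain ⟨r, hr, h1⟩ := Metric.isOpen_iff.1 hUop x0 hx0U
      exact ⟨r / 2, by positivity, by simpa [mul_div_cancel₀] using h1⟩
    -- the partition
    let cov : I → Set I := fun s =>
      {t | dist (g t) (g s) < r / 2} ∩ (if s = t0 then J else {t0}ᶜ)
    have hcov1 : ∀ s, IsOpen (cov s) := by
      intro s
      apply IsOpen.inter
      · exact isOpen_lt (g.continuous.dist continuous_const) continuous_const
      · split_ifs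
        · exact hJ
        · exact isOpen_compl_singleton
    have hcov2 : (univ : Set I) ⊆ ⋃ s, cov s := by
      intro s _
      refine mem_iUnion.2 ⟨s, ?_, ?_⟩
      · show dist (g s) (g s) < r / 2
        rw [dist_self]
        positivity
      · by_cases hs : s = t0
        · rw [if_pos hs, hs]
          exact ht0J
        · rw [if_neg hs]
          exact hs
    obtain ⟨t, htz, htm, ⟨N, hN⟩, hpiece⟩ :=
      exists_monotone_Icc_subset_open_cover_unitInterval hcov1 hcov2
    have hsmall : ∀ n, ∀ x ∈ Icc (t n) (t (n + 1)), ∀ y ∈ Icc (t n) (t (n + 1)),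
        dist (g x) (g y) < r := by
      intro n x hx y hy
      obtain ⟨s, hs⟩ := hpiece n
      have h1 : dist (g x) (g s) < r / 2 := (hs hx).1
      have h2 : dist (g y) (g s) < r / 2 := (hs hy).1
      have h3 := dist_triangle_right (g x) (g y) (g s)
      linarith
    obtain ⟨j0, hj0N, hj0, hj0lt⟩ := exists_piece htz hN t0
    have hj0J : Icc (t j0) (t (j0 + 1)) ⊆ J := by
      obtain ⟨s, hs⟩ := hpiece j0
      have h1 := (hs hj0).2
      by_cases hst : s = t0
      · intro x hx
        have h2 := (hs hx).2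
        rw [if_pos hst] at h2
        exact h2
      · rw [if_neg hst] at h1
        exact absurd rfl h1
    have hj0ne : t j0 < t (j0 + 1) := lt_of_le_of_lt hj0.1 (hj0lt ht01)
    -- replaced pieces
    let R : ℕ → Prop := fun j => ∃ τ ∈ Icc (t j) (t (j + 1)), g τ ∈ ball x0 r
    have hRU : ∀ j, R j → ∀ τ ∈ Icc (t j) (t (j + 1)), g τ ∈ U := by
      rintro j ⟨τ', hτ', h1⟩ τ hτ
      apply hrU
      have h2 := hsmall j τ hτ τ' hτ'
      have h3 : dist (g τ') x0 < r := h1
      have h4 := dist_triangle (g τ) (g τ') x0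
      show dist (g τ) x0 < 2 * r
      linarith
    have hRj0 : R j0 := ⟨t0, hj0, by
      show g t0 ∈ ball x0 r
      exact mem_ball_self hr⟩
    have hle : ∀ j, t j ≤ t (j + 1) := fun j => htm (Nat.le_succ j)
    have hleft : ∀ j, t j ∈ Icc (t j) (t (j + 1)) := fun j => ⟨le_rfl, hle j⟩
    have hright : ∀ j, t (j + 1) ∈ Icc (t j) (t (j + 1)) := fun j => ⟨hle j, le_rfl⟩
    -- the covering path
    classical
    have hrest : ∀ j, ∃ f : C(I, X), range f = g '' Icc (t j) (t (j + 1)) := by
      intro j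
      obtain ⟨f, _, _, hf⟩ := exists_restrict g (hle j)
      exact ⟨f, hf⟩
    choose f hf using hrest
    obtain ⟨γ, hγU, hγ⟩ := exists_cover_path hUpc
      (((List.range N).filter (fun j => decide (R j))).map f) (by
        intro f' hf'
        obtain ⟨j, hj, rfl⟩ := List.mem_map.1 hf'
        have hRj : R j := by simpa using (List.mem_filter.1 hj).2
        rw [hf j]
        rintro _ ⟨τ, hτ, rfl⟩
        exact hRU j hRj τ hτ)
      (hRU j0 hRj0 _ (hleft j0)) (hRU j0 hRj0 _ (hright j0))
    -- the paths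
    have hpaths : ∀ j, ∃ p : C(I, X), R j → (p 0 = g (t j) ∧ p 1 = g (t (j + 1)) ∧ range p ⊆ U ∧
        (j ≠ j0 → NoInt (OO 𝓔) (range p)) ∧ (j = j0 → range p = range γ)) := by
      intro j
      by_cases hRj : R j
      · by_cases hj : j = j0
        · subst hj
          refine ⟨γ, fun _ => ⟨γ.source, γ.target, hγU, fun h => absurd rfl h, fun _ => rfl⟩⟩
        · obtain ⟨p, h1, h2, h3, h4⟩ := exists_thin_path hO hPA hUpc
            (hRU j hRj _ (hleft j)) (hRU j hRj _ (hright j))
          exact ⟨p, fun _ => ⟨h1, h2, h3, fun _ => h4, fun h => absurd h hj⟩⟩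
      · exact ⟨g, fun h => absurd h hRj⟩
    choose p hp using hpaths
    obtain ⟨g', hg1, hg2, hg3⟩ := exists_modify_many g t htm R p
      (fun j hj => ⟨(hp j hj).1, (hp j hj).2.1⟩) N
    -- values of the new curve
    have hval : ∀ τ, g' τ = g τ ∨ (g τ ∈ U ∧ g' τ ∈ U) := by
      intro τ
      by_cases hτ : ∀ j < N, R j → τ ∉ Ioo (t j) (t (j + 1))
      · exact Or.inl (hg1 τ hτ)
      · push Not at hτ
        obtain ⟨j, hj, hRj, hmem⟩ := hτ
        exact Or.inr ⟨hRU j hRj τ (Ioo_subset_Icc_self hmem),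
          (hp j hRj).2.2.1 (hg2 j hj hRj τ (Ioo_subset_Icc_self hmem))⟩
    refine ⟨g', ⟨?_, ?_, ?_, ?_⟩, ?_, ?_⟩
    · rw [hg1 0 (fun j _ _ hmem => not_lt.2 (t j).2.1 hmem.1),
        hg1 1 (fun j _ _ hmem => not_lt.2 (t (j + 1)).2.2 hmem.2)]
      exact hg.e
    · intro x
      obtain ⟨τ, rfl⟩ := hg.s x
      by_cases hτ : ∀ j < N, R j → τ ∉ Ioo (t j) (t (j + 1))
      · exact ⟨τ, hg1 τ hτ⟩
      · push Not at hτ
        obtain ⟨j, hj, hRj, hmem⟩ := hτ
        have h1 : g τ ∈ range γ := by
          apply hγ (f j)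
          · refine List.mem_map.2 ⟨j, ?_, rfl⟩
            simp [hj, hRj]
          · rw [hf j]
            exact ⟨τ, Ioo_subset_Icc_self hmem, rfl⟩
        rw [← (hp j0 hRj0).2.2.2.2 rfl] at h1
        obtain ⟨τ', _, h2⟩ := hg3 j0 hj0N hRj0 hj0ne h1
        exact ⟨τ', h2⟩
    · intro τ hτ
      rcases hval τ with h1 | ⟨h1, _⟩
      · rw [h1]
        exact hg.a τ hτ
      · rw [hg.a τ hτ] at h1
        exact absurd (hUO h1) hτ
    · intro τ hτ
      rcases hval τ with h1 | ⟨_, h1⟩
      · rw [h1]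
        exact hg.b τ hτ
      · exact hUO h1
    · intro τ
      rcases hval τ with h1 | ⟨h1, h2⟩
      · rw [h1, dist_self]
        exact hε.le
      · exact hUd _ h2 _ h1
    · -- a point avoided outside `J`
      have hthin : NoInt (OO 𝓔) {x | ∃ j < N, (R j ∧ j ≠ j0) ∧ x ∈ range (p j)} :=
        NoInt.biUnion (A := fun j => range (p j)) (fun j => R j ∧ j ≠ j0)
          (fun j hj => (hp j hj.1).2.2.2.1 hj.2) N
      have hbO : ball x0 r ⊆ OO 𝓔 := fun x hx =>
        hUO (hrU (ball_subset_ball (by linarith) hx))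
      have hnot := hthin.2 (ball x0 r) hbO isOpen_ball ⟨x0, mem_ball_self hr⟩
      obtain ⟨w, hw, hwA⟩ := not_subset.1 hnot
      intro huniv
      have hmem : w ∈ g' '' Jᶜ := by
        rw [huniv]
        trivial
      obtain ⟨τ, hτJ, hτw⟩ := hmem
      by_cases hτ : ∀ j < N, R j → τ ∉ Ioo (t j) (t (j + 1))
      · have h1 : g τ = w := by rw [← hg1 τ hτ, hτw]
        obtain ⟨n, hn, hτn, _⟩ := exists_piece htz hN τ
        have hRn : R n := ⟨τ, hτn, by rw [h1]; exact hw⟩
        have hnj : n ≠ j0 := by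
          rintro rfl
          exact hτJ (hj0J hτn)
        apply hwA
        refine ⟨n, hn, ⟨hRn, hnj⟩, ?_⟩
        rw [← hτw]
        exact hg2 n hn hRn τ hτn
      · push Not at hτ
        obtain ⟨j, hj, hRj, hmem⟩ := hτ
        have hnj : j ≠ j0 := by
          rintro rfl
          exact hτJ (hj0J (Ioo_subset_Icc_self hmem))
        apply hwA
        refine ⟨j, hj, ⟨hRj, hnj⟩, ?_⟩
        rw [← hτw]
        exact hg2 j hj hRj τ (Ioo_subset_Icc_self hmem)

/-- HARR -/
theorem harr [CompactSpace X] [ConnectedSpace X] [LocallyConnectedSpace X] [Nontrivial X]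
    (hPA : PathArcStmt X) : 𝓔.HarrStmt := by
  intro h hh hO
  have hh' : 𝓔.IsTour (OO 𝓔) h := hh
  have hAdm : Adm 𝓔 h h := ⟨hh.1, hh.2.1, fun _ _ => rfl, fun _ ht => ht⟩
  let A : Set C(I, X) := {g | Adm 𝓔 h g}
  let K : Set C(I, X) := closure A
  have hKcl : IsClosed K := isClosed_closure
  -- closed conditions
  have hF : IsClosed {g : C(I, X) | g 0 = g 1 ∧ Function.Surjective g} := by
    have h1 : IsClosed {g : C(I, X) | g 0 = g 1} :=
      isClosed_eq (ContinuousEvalConst.continuous_eval_const 0)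
        (ContinuousEvalConst.continuous_eval_const 1)
    have h2 : IsClosed {g : C(I, X) | Function.Surjective g} := by
      rw [← isOpen_compl_iff]
      have : {g : C(I, X) | Function.Surjective g}ᶜ =
          ⋃ x : X, {g : C(I, X) | MapsTo g univ ({x}ᶜ : Set X)} := by
        ext g
        simp only [mem_compl_iff, mem_ofPred_eq, mem_iUnion, Function.Surjective, MapsTo,
          mem_univ, mem_singleton_iff, forall_true_left]
        push Not
        rfl
      rw [this]
      exact isOpen_iUnion fun x =>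
        ContinuousMap.isOpen_setOfPred_mapsTo isCompact_univ isOpen_compl_singleton
    exact h1.inter h2
  have hKF : K ⊆ {g : C(I, X) | g 0 = g 1 ∧ Function.Surjective g} :=
    closure_minimal (fun g hg => ⟨hg.e, hg.s⟩) hF
  have : CompleteSpace K := hKcl.completeSpace_coe
  have hKne : Nonempty K := ⟨⟨h, subset_closure hAdm⟩⟩
  let W : Set I → Set K := fun J => {g | (g : C(I, X)) '' Jᶜ ≠ univ}
  have hWopen : ∀ J, IsOpen J → IsOpen (W J) := by
    intro J hJ
    have : W J = Subtype.val ⁻¹' ⋃ x : X, {g : C(I, X) | MapsTo g Jᶜ ({x}ᶜ : Set X)} := by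
      ext g
      simp only [W, mem_ofPred_eq, mem_preimage, mem_iUnion, MapsTo, Ne, eq_univ_iff_forall,
        mem_image, mem_compl_iff, mem_singleton_iff]
      push Not
      rfl
    rw [this]
    exact (isOpen_iUnion fun x => ContinuousMap.isOpen_setOfPred_mapsTo
      hJ.isClosed_compl.isCompact isOpen_compl_singleton).preimage continuous_subtype_val
  have hWdense : ∀ J, IsOpen J → J.Nonempty → Dense (W J) := by
    intro J hJ hJne
    rw [Metric.dense_iff]
    intro k ε hε
    obtain ⟨g, hg, hkg⟩ := Metric.mem_closure_iff.1 k.2 (ε / 2) (by positivity)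
    obtain ⟨g', hg', hd, hne⟩ := perturb hPA hh' hO hg (show 0 < ε / 4 by positivity) hJ hJne
    refine ⟨⟨g', subset_closure hg'⟩, ?_, hne⟩
    show dist g' k.1 < ε
    have h1 : dist g' g ≤ ε / 4 :=
      (ContinuousMap.dist_le (by positivity)).2 hd
    have h2 := dist_triangle g' g k.1
    have h3 : dist g k.1 < ε / 2 := by
      rw [dist_comm]
      exact hkg
    linarith
  -- Baire
  let B := TopologicalSpace.countableBasis I
  have hBc : B.Countable := TopologicalSpace.countable_countableBasis I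
  have hBb : TopologicalSpace.IsTopologicalBasis B := TopologicalSpace.isBasis_countableBasis I
  have hdense : Dense (⋂ J ∈ B, W J) := by
    apply dense_biInter_of_isOpen
    · intro J hJ
      exact hWopen J (hBb.isOpen hJ)
    · exact hBc
    · intro J hJ
      exact hWdense J (hBb.isOpen hJ) (TopologicalSpace.nonempty_of_mem_countableBasis hJ)
  obtain ⟨g, hg⟩ := hdense.nonempty
  refine ⟨g.1, (hKF g.2).1, (hKF g.2).2, ?_⟩
  intro J hJ hJne huniv
  obtain ⟨x, hx⟩ := hJne
  obtain ⟨b, hb, hxb, hbJ⟩ := hBb.exists_subset_of_mem_open hx hJ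
  have h1 : (g : C(I, X)) '' bᶜ ≠ univ := mem_iInter₂.1 hg b hb
  apply h1
  apply eq_univ_of_univ_subset
  rw [← huniv]
  exact image_mono (compl_subset_compl.2 hbJ)

end perturb

end Pool.Agent.EU.H42
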